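import Pool.Agent.ANO2.Defs

/-!
# ANO phase 3: definitions (all classes of products of closed hyperbolic surfaces)

Normal forms of surface homeomorphisms in terms of the dual trees of the invariant measured
foliations.  `MP_5e77d9_an`, paper proof `/team-store/ANO3_Blueprint.md`.
-/

set_option autoImplicit false

open scoped UpperHalfPlane MatrixGroups
open Set Filter Topology

namespace Pool.Agent.ANO3

open Pool.Agent.ANO Pool.Agent.ANO2

/-- `d` is the pseudo-distance of the dual tree of a measured foliation of the surface: `d` is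
continuous and invariant, satisfies the four point condition (so that `(ℍ, d)` is a tree), and the
points of the tree (the possibly singular leaves) are connected. -/
structure IsDual (S : ClosedSurface) (d : ℍ → ℍ → ℝ) : Prop where
  self : ∀ a, d a a = 0
  symm : ∀ a b, d a b = d b a
  triangle : ∀ a b c, d a c ≤ d a b + d b c
  cont : Continuous fun p : ℍ × ℍ => d p.1 p.2
  inv : ∀ γ ∈ S.Γ, ∀ a b : ℍ, d (γ • a) (γ • b) = d a b
  tree : ∀ a b c e, d a b + d c e ≤ max (d a c + d b e) (d a e + d b c)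
  conn : ∀ a, IsConnected {z | d z a = 0}

/-- `z` is periodic for the surface map: it is a fixed point of a lift of `f^m`, `m > 0`. -/
def IsPeriodic (S : SurfaceMap) (z : ℍ) : Prop :=
  ∃ (m : ℕ) (γ : SL(2, ℝ)), 0 < m ∧ γ ∈ S.Γ ∧ γ • S.f^[m] z = z

/-- `z` lies between `a` and `b` in the tree. -/
def Btw {P : Type*} (d : P → P → ℝ) (a z b : P) : Prop := d a z + d z b = d a b

/-- `a` and `b` lie in the same arm of the tree at `v` (component of the complement of `v`). -/
def SameArm {P : Type*} (d : P → P → ℝ) (v a b : P) : Prop := d a b < d v a + d v b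

/-- `v` is a corner: there are periodic points arbitrarily close to `v` which lie between `v` and a
fixed point `b` in both trees. -/
def IsCorner (S : SurfaceMap) (U : Set ℍ) (du ds : ℍ → ℍ → ℝ) (v : ℍ) : Prop :=
  ∃ b, ∀ ε > 0, ∃ z ∈ U, IsPeriodic S z ∧ du v z < ε ∧ ds v z < ε ∧ Btw du v z b ∧ Btw ds v z b

/-- `v` is singular: there are no two arms of the first tree and two arms of the second tree at `v`
each of which meets each (at a regular point the four quadrants are of this kind; at a prong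
singularity with `n ≥ 3` prongs the arms form a cycle of length `2 n`). -/
def IsSingular (du ds : ℍ → ℍ → ℝ) (v : ℍ) : Prop :=
  ∀ a b c e, SameArm du v a b → SameArm du v c e → SameArm ds v a c → SameArm ds v b e →
    SameArm du v a c ∨ SameArm ds v a b

/-- A normal form of the surface map: `U` is the lift of the pseudo-Anosov part, `du` and `ds` are
the pseudo-distances of the dual trees of its foliations (the components of the rest are points of
the trees), expanded and contracted by `f`; on the rest the map has only finitely many periodic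
orbits, and all periodic points are nondegenerate. -/
structure NormalForm (S : SurfaceMap) where
  U : Set ℍ
  l : ℝ
  L : ℝ
  du : ℍ → ℍ → ℝ
  ds : ℍ → ℍ → ℝ
  isOpen : IsOpen U
  inv : ∀ γ ∈ S.Γ, ∀ z, γ • z ∈ U ↔ z ∈ U
  inv_f : ∀ z, S.f z ∈ U ↔ z ∈ U
  one_lt : 1 < l
  dual_u : IsDual S.toClosedSurface du
  dual_s : IsDual S.toClosedSurface ds
  scale_u : ∀ a b, l * du a b ≤ du (S.f a) (S.f b) ∧ du (S.f a) (S.f b) ≤ L * du a b
  scale_s : ∀ a b, l * ds (S.f a) (S.f b) ≤ ds a b ∧ ds a b ≤ L * ds (S.f a) (S.f b)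
  chart : ∀ a ∈ U, ∃ D : OpenPartialHomeomorph ℂ ℂ, (a : ℂ) ∈ D.source ∧
    (∀ z ∈ D.source, ∃ z' ∈ U, (z' : ℂ) = z) ∧
    ContDiffOn ℝ 1 D D.source ∧ ContDiffOn ℝ 1 D.symm D.target ∧
    ∀ z z' : ℍ, (z : ℂ) ∈ D.source → (z' : ℂ) ∈ D.source →
      du z z' = |(D z).re - (D z').re| ∧ ds z z' = |(D z).im - (D z').im|
  emb : ∀ a ∈ U, ∀ N ∈ 𝓝 a, ∃ ε > 0, ∀ z, du a z < ε → ds a z < ε → z ∈ N
  sep : ∃ ε > 0, ∀ a b : ℍ, a ∉ U → b ∉ U → du a b < ε → ds a b < ε → du a b = 0 ∧ ds a b = 0
  dense : ∀ a ∈ U, ∀ N ∈ 𝓝 a, ∃ z ∈ N, IsPeriodic S z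
  finite : ∃ A : Set ℍ, A.Finite ∧ ∀ z, z ∉ U → IsPeriodic S z → ∃ γ ∈ S.Γ, γ • z ∈ A
  nondeg : ∀ (z : ℍ) (m : ℕ) (γ : SL(2, ℝ)), 0 < m → γ ∈ S.Γ → γ • S.f^[m] z = z →
      ContDiffAt ℝ 1 (fun x : ℂ => ((γ • S.f^[m] (UpperHalfPlane.ofComplex x) : ℍ) : ℂ)) z ∧
        (fderiv ℝ (fun x : ℂ => x - ((γ • S.f^[m] (UpperHalfPlane.ofComplex x) : ℍ) : ℂ)) z).det
          ≠ 0
  vertex : U.Nonempty → ∃ v, v ∉ U ∧ IsCorner S U du ds v ∧ IsSingular du ds v

variable {r : ℕ}

/-- The product of the surface maps. -/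
noncomputable def prodMap (S : Fin r → SurfaceMap) (p : X r 0) : X r 0 :=
  (fun i => (S i).f (p.1 i), p.2)

/-- The statement of phase 3. -/
def MainStatement : Prop :=
  ∀ r : ℕ, 0 < r → ∀ S : Fin r → SurfaceMap, (∀ i, Nonempty (NormalForm (S i))) →
    ∀ F : X r 0 ≃ₜ X r 0, IsAnosovLift (surf S) F → ∀ n : ℕ, 0 < n →
      ¬ Homotopic (surf S) (prodMap S) (F ^ n : X r 0 ≃ₜ X r 0)

end Pool.Agent.ANO3
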